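import Pool.Agent.T9h23.Ru.R6
import Pool.Agent.T9h23.Ha.E2

/-! # Exceptions to the inequality of Hall in short intervals at any height -/

set_option autoImplicit false

namespace T9h23.Tr

open Finset T9h23.Ru T9h23.Ha
open scoped Classical

/-- few elements in a short interval -/
theorem short_block (N L lo D : ℕ) (hL0 : 0 < L) (hL : L ^ 6 ≤ N) (s : Finset ℕ)
    (hs : ∀ x ∈ s, x ∈ Pool.Agent.V60.Hall.E ∧ N < x ∧ x ≤ 2 * N ∧ lo ≤ x ∧ x ≤ lo + D) :
    s.card ≤ 2 * (D / L + 2) := by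
  have h1 : s.card ≤ 2 * (s.image (fun x => x / L)).card := by
    apply Finset.card_le_mul_card_image
    intro b _
    by_contra hcon
    push Not at hcon
    obtain ⟨x, hx, y, hy, z, hz, hxy, hxz, hyz⟩ := Finset.two_lt_card.1 hcon
    have key : ∀ x y z : ℕ, x ∈ s.filter (fun x => x / L = b) → y ∈ s.filter (fun x => x / L = b) →
        z ∈ s.filter (fun x => x / L = b) → x < y → y < z → False := by
      intro x y z hx hy hz h12 h23
      rw [mem_filter] at hx hy hz
      have ax := hs x hx.1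
      have ay := hs y hy.1
      have az := hs z hz.1
      refine Pool.Agent.V60.Hall.three ax.1 ay.1 az.1 ax.2.1 h12 h23 az.2.2.1 (le_trans ?_ hL)
      apply Nat.pow_le_pow_left
      have h3 := Nat.div_mul_le_self x L
      have h4 := Nat.lt_div_mul_add (a := z) hL0
      rw [hx.2] at h3
      rw [hz.2] at h4
      omega
    rcases lt_trichotomy x y with h | h | h
    · rcases lt_trichotomy y z with h' | h' | h'
      · exact key x y z hx hy hz h h'
      · exact hyz h'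
      · rcases lt_trichotomy x z with h'' | h'' | h''
        · exact key x z y hx hz hy h'' h'
        · exact hxz h''
        · exact key z x y hz hx hy h'' h
    · exact hxy h
    · rcases lt_trichotomy x z with h' | h' | h'
      · exact key y x z hy hx hz h h'
      · exact hxz h'
      · rcases lt_trichotomy y z with h'' | h'' | h''
        · exact key y z x hy hz hx h'' h'
        · exact hyz h''
        · exact key z y x hz hy hx h'' h
  have h2 : (s.image (fun x => x / L)).card ≤ D / L + 2 := by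
    have h3 : s.image (fun x => x / L) ⊆ Icc (lo / L) (lo / L + D / L + 1) := by
      intro b hb
      rw [mem_image] at hb
      obtain ⟨x, hx, rfl⟩ := hb
      have ax := hs x hx
      rw [mem_Icc]
      constructor
      · exact Nat.div_le_div_right ax.2.2.2.1
      · have h4 : x / L ≤ (lo + D) / L := Nat.div_le_div_right ax.2.2.2.2
        refine h4.trans ?_
        rw [← Nat.lt_succ_iff, Nat.div_lt_iff_lt_mul hL0]
        have h5 := Nat.lt_div_mul_add (a := lo) hL0
        have h6 := Nat.lt_div_mul_add (a := D) hL0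
        nlinarith
    have h4 := Finset.card_le_card h3
    rw [Nat.card_Icc] at h4
    generalize lo / L = p at h4
    generalize D / L = q at h4 ⊢
    omega
  calc s.card ≤ 2 * (s.image (fun x => x / L)).card := h1
    _ ≤ 2 * (D / L + 2) := Nat.mul_le_mul_left 2 h2

/-- large exceptions are in the set `E` -/
theorem lvl {x y : ℤ} {δ : ℝ} (hδ : 0 ≤ δ) (hx : (1024 : ℝ) ≤ |(x : ℝ)|)
    (h : |(y : ℝ) ^ 2 - (x : ℝ) ^ 3| < |(x : ℝ)| ^ (1 / 2 - δ)) : 32 * |y ^ 2 - x ^ 3| < |x| := by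
  have hx0 : 0 < |(x : ℝ)| := by linarith
  have h1 : |(x : ℝ)| ^ (1 / 2 - δ) ≤ |(x : ℝ)| ^ (1 / 2 : ℝ) :=
    Real.rpow_le_rpow_of_exponent_le (by linarith) (by linarith)
  have h2 : 32 * |(x : ℝ)| ^ (1 / 2 : ℝ) ≤ |(x : ℝ)| := by
    have h3 : (32 : ℝ) ≤ |(x : ℝ)| ^ (1 / 2 : ℝ) := by
      have h4 : (1024 : ℝ) ^ (1 / 2 : ℝ) ≤ |(x : ℝ)| ^ (1 / 2 : ℝ) := Real.rpow_le_rpow (by norm_num) hx (by norm_num)
      have h5 : (1024 : ℝ) ^ (1 / 2 : ℝ) = 32 := by
        rw [show (1024 : ℝ) = 32 ^ (2 : ℝ) by norm_num, ← Real.rpow_mul (by norm_num)]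
        norm_num
      linarith
    have h4 : |(x : ℝ)| ^ (1 / 2 : ℝ) * |(x : ℝ)| ^ (1 / 2 : ℝ) = |(x : ℝ)| := by
      rw [← Real.rpow_add hx0]; norm_num
    nlinarith
  have h3 : 32 * |(y : ℝ) ^ 2 - (x : ℝ) ^ 3| < |(x : ℝ)| := by linarith
  exact_mod_cast h3

theorem root_nat (H : ℕ) (hH : 1 ≤ H) (t : ℕ) (ht : 1 ≤ t) : ∃ h : ℕ, 0 < h ∧ h ^ t ≤ H ∧
    (H : ℝ) ^ (1 / (t : ℝ)) ≤ 2 * h := by
  have hHr : (1 : ℝ) ≤ H := by exact_mod_cast hH
  have htr : (0 : ℝ) < t := by exact_mod_cast ht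
  have hp : 1 ≤ (H : ℝ) ^ (1 / (t : ℝ)) := Real.one_le_rpow hHr (by positivity)
  refine ⟨⌊(H : ℝ) ^ (1 / (t : ℝ))⌋₊, Nat.floor_pos.2 hp, ?_, ?_⟩
  · have h1 : (⌊(H : ℝ) ^ (1 / (t : ℝ))⌋₊ : ℝ) ≤ (H : ℝ) ^ (1 / (t : ℝ)) := Nat.floor_le (by positivity)
    have h2 : ((⌊(H : ℝ) ^ (1 / (t : ℝ))⌋₊ : ℝ)) ^ t ≤ H := by
      calc ((⌊(H : ℝ) ^ (1 / (t : ℝ))⌋₊ : ℝ)) ^ t ≤ ((H : ℝ) ^ (1 / (t : ℝ))) ^ t := by gcongr
        _ = H := by
          rw [← Real.rpow_natCast, ← Real.rpow_mul (by positivity)]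
          rw [one_div, inv_mul_cancel₀ htr.ne', Real.rpow_one]
    exact_mod_cast h2
  · have h1 := Nat.lt_floor_add_one ((H : ℝ) ^ (1 / (t : ℝ)))
    have h2 : (1 : ℝ) ≤ ⌊(H : ℝ) ^ (1 / (t : ℝ))⌋₊ := by exact_mod_cast Nat.floor_pos.2 hp
    linarith

/-- **Exceptional abscissas in an interval of length `2 H`, at any height.** -/
theorem winX (δ : ℝ) (h0 : 0 < δ) (h1 : δ ≤ 1 / 2) : ∃ K : ℝ, 0 < K ∧ ∀ H : ℕ, 1 ≤ H → ∀ w : ℤ,
    (((Icc (-(H : ℤ)) H).filter (fun c => BadX δ (w + c))).card : ℝ) ≤ K * (H : ℝ) ^ (2 / 3 : ℝ) := by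
  obtain ⟨K, hK, hcount⟩ := countX δ h0 h1
  refine ⟨3 * K + 77, by positivity, ?_⟩
  intro H hH w
  have hHr : (1 : ℝ) ≤ H := by exact_mod_cast hH
  have hH0 : (0 : ℝ) < H := by linarith
  have hp : 1 ≤ (H : ℝ) ^ (2 / 3 : ℝ) := Real.one_le_rpow hHr (by norm_num)
  set F := (Icc (-(H : ℤ)) H).filter (fun c => BadX δ (w + c)) with hF
  have hcF : ∀ c ∈ F, |c| ≤ H ∧ BadX δ (w + c) := by
    intro c hc
    rw [hF, mem_filter, mem_Icc, ← abs_le] at hc
    exact hc
  rcases le_or_gt |w| (2 * (H : ℤ) ^ 2) with hw | hw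
  · -- small height
    have e1 : (F.card : ℝ) = ((F.image (fun c => w + c)).card : ℝ) := by
      rw [Finset.card_image_of_injective _ (add_right_injective w)]
    have e2 := hcount (3 * (H : ℝ) ^ 2) (by nlinarith) (F.image (fun c => w + c)) (by
      intro x hx
      rw [mem_image] at hx
      obtain ⟨c, hc, rfl⟩ := hx
      obtain ⟨c1, c2⟩ := hcF c hc
      refine ⟨?_, c2⟩
      have h3 : |w + c| ≤ 3 * (H : ℤ) ^ 2 := by
        have h4 := abs_add_le w c
        have h5 : (H : ℤ) ≤ (H : ℤ) ^ 2 := by nlinarith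
        linarith
      exact_mod_cast h3)
    rw [e1]
    refine e2.trans ?_
    have h3 : (3 * (H : ℝ) ^ 2) ^ (1 / 3 - δ / 12) ≤ 3 * (H : ℝ) ^ (2 / 3 : ℝ) := by
      calc (3 * (H : ℝ) ^ 2) ^ (1 / 3 - δ / 12) ≤ (3 * (H : ℝ) ^ 2) ^ (1 / 3 : ℝ) :=
            Real.rpow_le_rpow_of_exponent_le (by nlinarith) (by linarith)
        _ = (3 : ℝ) ^ (1 / 3 : ℝ) * (H : ℝ) ^ (2 / 3 : ℝ) := by
            rw [Real.mul_rpow (by norm_num) (by positivity), ← Real.rpow_natCast (H : ℝ) 2, ← Real.rpow_mul hH0.le]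
            norm_num
        _ ≤ 3 * (H : ℝ) ^ (2 / 3 : ℝ) := by
            have h4 : (3 : ℝ) ^ (1 / 3 : ℝ) ≤ 3 := by
              calc (3 : ℝ) ^ (1 / 3 : ℝ) ≤ (3 : ℝ) ^ (1 : ℝ) :=
                    Real.rpow_le_rpow_of_exponent_le (by norm_num) (by norm_num)
                _ = 3 := Real.rpow_one _
            gcongr
    calc K * (3 * (H : ℝ) ^ 2) ^ (1 / 3 - δ / 12) ≤ K * (3 * (H : ℝ) ^ (2 / 3 : ℝ)) := by gcongr
      _ ≤ _ := by nlinarith
  · rcases Nat.lt_or_ge H 32 with h32 | h32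
    · have e1 : F.card ≤ 65 := by
        calc F.card ≤ (Icc (-(H : ℤ)) H).card := Finset.card_filter_le _ _
          _ ≤ 65 := by rw [Int.card_Icc]; omega
      have e2 : (F.card : ℝ) ≤ 65 := by exact_mod_cast e1
      nlinarith
    · -- large height
      have h32z : (32 : ℤ) ≤ H := by exact_mod_cast h32
      have hbig : ∀ c ∈ F, 0 < w + c ∧ (w + c).natAbs ∈ Pool.Agent.V60.Hall.E := by
        intro c hc
        obtain ⟨c1, y, c2, c3⟩ := hcF c hc
        have h3 : 1024 ≤ |w + c| := by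
          have h4 : |w| ≤ |w + c| + |c| := by
            have := abs_sub (w + c) c
            rwa [add_sub_cancel_right] at this
          nlinarith
        have h4 := lvl h0.le (by exact_mod_cast h3) c3
        exact ⟨bad_pos h4, bad_mem c2 h4⟩
      rcases F.eq_empty_or_nonempty with hE | hE
      · rw [hE, card_empty]
        push_cast
        positivity
      · obtain ⟨c₀, hc₀⟩ := hE
        have hwpos : 0 < w := by
          obtain ⟨c1, -⟩ := hcF c₀ hc₀
          obtain ⟨c2, -⟩ := hbig c₀ hc₀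
          rw [abs_le] at c1
          by_contra hcon
          push Not at hcon
          rw [abs_of_nonpos hcon] at hw
          nlinarith
        rw [abs_of_pos hwpos] at hw
        obtain ⟨h, hh0, hh1, hh2⟩ := root_nat H hH 3 (by norm_num)
        obtain ⟨v, hv⟩ : ∃ v : ℕ, (v : ℤ) = w - H := ⟨(w - H).toNat, by
          rw [Int.toNat_of_nonneg]; nlinarith⟩
        have e1 : F.card = (F.image (fun c => (w + c).natAbs)).card := by
          rw [Finset.card_image_of_injOn]
          intro a ha b hb hab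
          have ha1 := (hbig a ha).1
          have hb1 := (hbig b hb).1
          have h3 : ((w + a).natAbs : ℤ) = ((w + b).natAbs : ℤ) := by exact_mod_cast hab
          rw [Int.natCast_natAbs, Int.natCast_natAbs, abs_of_pos ha1, abs_of_pos hb1] at h3
          linarith
        have e2 := short_block (v - 1) h v (2 * H) hh0 (by
          have h3 : h ^ 6 ≤ H ^ 2 := by
            calc h ^ 6 = (h ^ 3) ^ 2 := by ring
              _ ≤ H ^ 2 := Nat.pow_le_pow_left hh1 2
          have h4 : H ^ 2 + 1 ≤ v := by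
            have : ((H ^ 2 + 1 : ℕ) : ℤ) ≤ v := by
              rw [hv]; push_cast; nlinarith
            exact_mod_cast this
          omega) (F.image (fun c => (w + c).natAbs)) (by
          intro x hx
          rw [mem_image] at hx
          obtain ⟨c, hc, rfl⟩ := hx
          obtain ⟨c1, -⟩ := hcF c hc
          obtain ⟨c2, c3⟩ := hbig c hc
          rw [abs_le] at c1
          have h3 : ((w + c).natAbs : ℤ) = w + c := by rw [Int.natCast_natAbs, abs_of_pos c2]
          have h4 : (64 * H : ℤ) < w := by nlinarith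
          refine ⟨c3, ?_, ?_, ?_, ?_⟩ <;> omega)
        rw [← e1] at e2
        have e3 : (F.card : ℝ) ≤ 2 * (2 * H / h + 2) := by
          have h3 : ((F.card : ℕ) : ℝ) ≤ ((2 * (2 * H / h + 2) : ℕ) : ℝ) := by exact_mod_cast e2
          push_cast at h3
          have h4 : (((2 * H / h : ℕ)) : ℝ) ≤ 2 * H / h := by
            have := Nat.cast_div_le (α := ℝ) (m := 2 * H) (n := h)
            push_cast at this
            exact this
          linarith
        have hhr : (0 : ℝ) < h := by exact_mod_cast hh0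
        have e4 : 2 * (H : ℝ) / h ≤ 4 * (H : ℝ) ^ (2 / 3 : ℝ) := by
          rw [div_le_iff₀ hhr]
          have h5 : (H : ℝ) = (H : ℝ) ^ (2 / 3 : ℝ) * (H : ℝ) ^ (1 / ((3 : ℕ) : ℝ)) := by
            rw [← Real.rpow_add hH0]
            norm_num
          calc 2 * (H : ℝ) = 2 * ((H : ℝ) ^ (2 / 3 : ℝ) * (H : ℝ) ^ (1 / ((3 : ℕ) : ℝ))) := by rw [← h5]
            _ ≤ 2 * ((H : ℝ) ^ (2 / 3 : ℝ) * (2 * h)) := by gcongr
            _ = 4 * (H : ℝ) ^ (2 / 3 : ℝ) * h := by ring
        nlinarith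

end T9h23.Tr
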