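import Pool.Agent.T9h23.Tr.G1

/-! # Exceptional ordinates in short intervals at any height -/

set_option autoImplicit false

namespace T9h23.Tr

open Finset T9h23.Ru T9h23.Ha
open scoped Classical

/-- the abscissas are in a short interval -/
theorem gap_y (W H x x' y y' : ℝ) (hH : 1000 ≤ H) (hW : 66 * H ≤ W) (hW2 : 4 * H ^ 3 ≤ W ^ 2)
    (hy1 : W - H ≤ y) (_hy2 : y ≤ W + H) (hy1' : W - H ≤ y') (hy2' : y' ≤ W + H)
    (hx : 1 ≤ x) (hxx : x ≤ x') (h : 32 * |y ^ 2 - x ^ 3| ≤ x) (h' : 32 * |y' ^ 2 - x' ^ 3| ≤ x') :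
    H + 1 < x ∧ (x' - x) ^ 2 ≤ 4 * H := by
  have hW0 : 0 < W := by linarith
  have hx0 : 0 < x := by linarith
  have hx0' : 0 < x' := by linarith
  have hc1 := neg_abs_le (y ^ 2 - x ^ 3)
  have hc2 := le_abs_self (y' ^ 2 - x' ^ 3)
  have hc3 := le_abs_self (y ^ 2 - x ^ 3)
  have hc4 := neg_abs_le (y' ^ 2 - x' ^ 3)
  have hx3 : x ≤ x ^ 3 := le_self_pow₀ hx (by norm_num)
  have hx3' : x' ≤ x' ^ 3 := le_self_pow₀ (by linarith) (by norm_num)
  have ysq1 : 24 / 25 * W ^ 2 ≤ y ^ 2 := by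
    have h1 : (W - H) ^ 2 ≤ y ^ 2 := pow_le_pow_left₀ (by linarith) hy1 2
    nlinarith
  have ysq2 : y' ^ 2 ≤ (W + H) ^ 2 := pow_le_pow_left₀ (by linarith) hy2' 2
  have ysq3 : (W - H) ^ 2 ≤ y ^ 2 := pow_le_pow_left₀ (by linarith) hy1 2
  have hxW : 9 / 10 * W ^ 2 ≤ x ^ 3 := by nlinarith
  have hxH : H + 1 < x := by
    by_contra hcon
    push Not at hcon
    have h1 : x ^ 3 ≤ (H + 1) ^ 3 := pow_le_pow_left₀ hx0.le hcon 3
    have h2 : (H + 1) ^ 3 ≤ 2 * H ^ 3 := by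
      have h3 : 0 < H ^ 2 := by positivity
      nlinarith
    have h3 : 0 < H ^ 3 := by positivity
    nlinarith
  refine ⟨hxH, ?_⟩
  have hxW' : x' ^ 3 ≤ 11 / 10 * W ^ 2 := by
    have h1 : (W + H) ^ 2 ≤ 104 / 100 * W ^ 2 := by nlinarith
    nlinarith
  have hx'W : x' ≤ W := by
    by_contra hcon
    push Not at hcon
    have h1 : W ^ 3 ≤ x' ^ 3 := pow_le_pow_left₀ hW0.le hcon.le 3
    have h2 : 2 * W ^ 2 ≤ W ^ 3 := by nlinarith [sq_nonneg W]
    have h3 : 0 < W ^ 2 := by positivity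
    nlinarith
  have hdiff : x' ^ 3 - x ^ 3 ≤ 41 / 10 * (W * H) := by
    have h1 : (W + H) ^ 2 - (W - H) ^ 2 = 4 * (W * H) := by ring
    have h2 : W ≤ W * H := by nlinarith
    nlinarith
  have hD : (x' - x) * (3 * x ^ 2) ≤ 41 / 10 * (W * H) := by
    have h1 : (x' - x) * (3 * x ^ 2) ≤ x' ^ 3 - x ^ 3 := by
      have h2 : x' ^ 3 - x ^ 3 = (x' - x) * (x' ^ 2 + x' * x + x ^ 2) := by ring
      rw [h2]
      apply mul_le_mul_of_nonneg_left _ (by linarith)
      nlinarith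
    linarith
  have hD0 : 0 ≤ (x' - x) * (3 * x ^ 2) := mul_nonneg (by linarith) (by positivity)
  have hsq : ((x' - x) * (3 * x ^ 2)) ^ 2 ≤ (41 / 10 * (W * H)) ^ 2 := pow_le_pow_left₀ hD0 hD 2
  have h1 : 9 * ((x' - x) ^ 2 * x) * x ^ 3 ≤ 17 * H ^ 2 * W ^ 2 := by nlinarith
  have h2 : 17 * H ^ 2 * W ^ 2 ≤ 19 * H ^ 2 * x ^ 3 := by
    have h3 : 0 < H ^ 2 := by positivity
    nlinarith
  have h3 : 9 * ((x' - x) ^ 2 * x) ≤ 19 * H ^ 2 := by
    have h4 : 0 < x ^ 3 := by positivity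
    exact le_of_mul_le_mul_right (h1.trans h2) h4
  have h4 : (x' - x) ^ 2 * H ≤ (x' - x) ^ 2 * x := mul_le_mul_of_nonneg_left (by linarith) (sq_nonneg _)
  have h5 : (x' - x) ^ 2 * H ≤ (4 * H) * H := by nlinarith
  exact le_of_mul_le_mul_right h5 (by linarith)

theorem badY_neg (δ : ℝ) (y : ℤ) : BadY δ (-y) ↔ BadY δ y := by
  unfold BadY
  simp only [neg_sq, Int.cast_neg]

theorem winY_pos (δ : ℝ) (h0 : 0 < δ) (H : ℕ) (hH : 1100 ≤ H) (w : ℤ) (hw : 0 < w) (hwH : 4 * (H : ℤ) ^ 3 ≤ w ^ 2) :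
    (((Icc (-(H : ℤ)) H).filter (fun c => BadY δ (w + c))).card : ℝ) ≤ 77 * (H : ℝ) ^ (1 / 3 : ℝ) := by
  have hH1 : 1 ≤ H := by omega
  have hHr : (1100 : ℝ) ≤ H := by exact_mod_cast hH
  have hH0 : (0 : ℝ) < H := by linarith
  have hp : 1 ≤ (H : ℝ) ^ (1 / 3 : ℝ) := Real.one_le_rpow (by linarith) (by norm_num)
  have hHz : (1100 : ℤ) ≤ H := by exact_mod_cast hH
  have hw66 : 66 * (H : ℤ) ≤ w := by
    by_contra hcon
    push Not at hcon
    have h1 : w ^ 2 < (66 * (H : ℤ)) ^ 2 := pow_lt_pow_left₀ hcon hw.le (by norm_num)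
    nlinarith [sq_nonneg (H : ℤ)]
  set F := (Icc (-(H : ℤ)) H).filter (fun c => BadY δ (w + c)) with hF
  have hcF : ∀ c ∈ F, |c| ≤ H ∧ BadY δ (w + c) := by
    intro c hc
    rw [hF, mem_filter, mem_Icc, ← abs_le] at hc
    exact hc
  have hch : ∀ c : ℤ, ∃ x : ℤ, c ∈ F → 0 < x ∧ x.natAbs ∈ Pool.Agent.V60.Hall.E ∧
      32 * |(w + c) ^ 2 - x ^ 3| < |x| := by
    intro c
    by_cases hc : c ∈ F
    · obtain ⟨c1, x, c2, c3⟩ := hcF c hc
      have hx : (1024 : ℝ) ≤ |(x : ℝ)| := by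
        by_contra hcon
        push Not at hcon
        have h1 : |(x : ℝ)| ^ 3 ≤ 1024 ^ 3 := pow_le_pow_left₀ (abs_nonneg _) hcon.le 3
        have h2 : |(x : ℝ)| ^ (1 / 2 - δ) ≤ 1024 := by
          rcases le_total |(x : ℝ)| 1 with h3 | h3
          · rcases lt_or_ge (1 / 2 - δ) 0 with h4 | h4
            · -- |x| < 1 integer: zero
              rcases eq_or_ne x 0 with h5 | h5
              · rw [h5, Int.cast_zero, abs_zero, Real.zero_rpow h4.ne]; norm_num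
              · have h6 : (1 : ℝ) ≤ |(x : ℝ)| := by
                  have : 1 ≤ |x| := Int.one_le_abs h5
                  exact_mod_cast this
                rw [le_antisymm h3 h6, Real.one_rpow]; norm_num
            · exact (Real.rpow_le_one (abs_nonneg _) h3 h4).trans (by norm_num)
          · calc |(x : ℝ)| ^ (1 / 2 - δ) ≤ |(x : ℝ)| ^ (1 : ℝ) := Real.rpow_le_rpow_of_exponent_le h3 (by linarith)
              _ = |(x : ℝ)| := Real.rpow_one _
              _ ≤ 1024 := hcon.le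
        have h3 : ((w + c : ℤ) : ℝ) ^ 2 ≤ 1024 ^ 3 + 1024 := by
          have h4 := le_abs_self (((w + c : ℤ) : ℝ) ^ 2 - (x : ℝ) ^ 3)
          have h5 : (x : ℝ) ^ 3 ≤ |(x : ℝ)| ^ 3 := by rw [← abs_pow]; exact le_abs_self _
          linarith
        have h4 : (w + c) ^ 2 ≤ 1024 ^ 3 + 1024 := by exact_mod_cast h3
        rw [abs_le] at c1
        have h5 : 65 * (H : ℤ) ≤ w + c := by linarith [c1.1]
        have h6 : (65 * (1100 : ℤ)) ^ 2 ≤ (w + c) ^ 2 := pow_le_pow_left₀ (by norm_num) (by linarith) 2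
        have h7 : (H : ℤ) ^ 3 ≤ (w + c) ^ 2 := by
          have h8 : w ≤ 2 * (w + c) := by linarith [c1.1]
          have h9 : w ^ 2 ≤ (2 * (w + c)) ^ 2 := pow_le_pow_left₀ hw.le h8 2
          nlinarith
        have h8 : (1100 : ℤ) ^ 3 ≤ (H : ℤ) ^ 3 := pow_le_pow_left₀ (by norm_num) hHz 3
        norm_num at h8 h4
        linarith
      have h4 := lvl h0.le hx c3
      exact ⟨x, fun _ => ⟨bad_pos h4, bad_mem c2 h4, h4⟩⟩
    · exact ⟨0, fun h => absurd h hc⟩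
  choose g hg using hch
  set s := F.image (fun c => (g c).natAbs) with hs
  have e1 : F.card = s.card := by
    rw [hs, Finset.card_image_of_injOn]
    intro a ha b hb hab
    obtain ⟨a1, -, a2⟩ := hg a ha
    obtain ⟨b1, -, b2⟩ := hg b hb
    have h3 : g a = g b := by
      have h4 : ((g a).natAbs : ℤ) = ((g b).natAbs : ℤ) := by exact_mod_cast hab
      rwa [Int.natCast_natAbs, Int.natCast_natAbs, abs_of_pos a1, abs_of_pos b1] at h4
    rw [h3] at a2
    have h5 := bad_unique a2 b2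
    have ha2 := (hcF a ha).1
    have hb2 := (hcF b hb).1
    rw [abs_le] at ha2 hb2
    rw [abs_of_pos (by linarith [ha2.1]), abs_of_pos (by linarith [hb2.1])] at h5
    linarith
  rcases F.eq_empty_or_nonempty with hE | hE
  · rw [hE, card_empty]
    push_cast
    positivity
  · have hsne : s.Nonempty := hE.image _
    obtain ⟨c₀, hc₀, hmin⟩ := mem_image.1 (s.min'_mem hsne)
    obtain ⟨m1, -, m2⟩ := hg c₀ hc₀
    have hc₀H := (hcF c₀ hc₀).1
    rw [abs_le] at hc₀H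
    obtain ⟨h, hh0, hh1, hh2⟩ := root_nat H hH1 6 (by norm_num)
    have hXr : (((s.min' hsne : ℕ)) : ℝ) = (g c₀ : ℝ) := by
      rw [← hmin, Nat.cast_natAbs, abs_of_pos m1]
    have hwr : 66 * (H : ℝ) ≤ w := by exact_mod_cast hw66
    have hwr2 : 4 * (H : ℝ) ^ 3 ≤ (w : ℝ) ^ 2 := by exact_mod_cast hwH
    rw [abs_of_pos m1] at m2
    have m2r : 32 * |((w : ℝ) + c₀) ^ 2 - (g c₀ : ℝ) ^ 3| ≤ g c₀ := by exact_mod_cast m2.le
    have hgap : ∀ x ∈ s, ((x : ℝ) - s.min' hsne) ^ 2 ≤ 4 * H ∧ (H : ℝ) + 1 < s.min' hsne := by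
      intro x hx
      obtain ⟨c, hc, rfl⟩ := mem_image.1 hx
      obtain ⟨n1, -, n2⟩ := hg c hc
      have hcH := (hcF c hc).1
      rw [abs_le] at hcH
      rw [abs_of_pos n1] at n2
      have n2r : 32 * |((w : ℝ) + c) ^ 2 - (g c : ℝ) ^ 3| ≤ g c := by exact_mod_cast n2.le
      have h3 : (g c₀ : ℝ) ≤ g c := by
        have h4 := s.min'_le _ hx
        rw [← hmin] at h4
        have h5 : ((g c₀).natAbs : ℤ) ≤ ((g c).natAbs : ℤ) := by exact_mod_cast h4
        rw [Int.natCast_natAbs, Int.natCast_natAbs, abs_of_pos m1, abs_of_pos n1] at h5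
        exact_mod_cast h5
      have h4 := gap_y (w : ℝ) H (g c₀) (g c) (w + c₀) (w + c) (by linarith) hwr hwr2
        (by have : (-(H : ℝ)) ≤ c₀ := by exact_mod_cast hc₀H.1
            linarith)
        (by have : (c₀ : ℝ) ≤ H := by exact_mod_cast hc₀H.2
            linarith)
        (by have : (-(H : ℝ)) ≤ c := by exact_mod_cast hcH.1
            linarith)
        (by have : (c : ℝ) ≤ H := by exact_mod_cast hcH.2
            linarith)
        (by exact_mod_cast m1) h3 m2r n2r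
      rw [hXr]
      refine ⟨?_, h4.1⟩
      have h5 : (((g c).natAbs : ℕ) : ℝ) = (g c : ℝ) := by
        rw [Nat.cast_natAbs, abs_of_pos n1]
      rw [h5]
      exact h4.2
    set X := s.min' hsne with hX
    have hXH : H + 1 < X := by
      have := (hgap _ (s.min'_mem hsne)).2
      exact_mod_cast this
    -- the diameter
    obtain ⟨D, hD⟩ : ∃ D : ℕ, D = ⌊2 * √(H : ℝ)⌋₊ := ⟨_, rfl⟩
    have hsqrt : √(H : ℝ) ^ 2 = H := Real.sq_sqrt hH0.le
    have hsq0 : 0 ≤ √(H : ℝ) := Real.sqrt_nonneg _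
    have hDx : ∀ x ∈ s, x ≤ X + D := by
      intro x hx
      have h3 := (hgap x hx).1
      have h4 : (x : ℝ) - X ≤ 2 * √(H : ℝ) := by
        have h5 : ((x : ℝ) - X) ^ 2 ≤ (2 * √(H : ℝ)) ^ 2 := by
          rw [mul_pow, hsqrt]; linarith
        exact (abs_le_of_sq_le_sq' h5 (by positivity)).2
      have h5 : x - X ≤ D := by
        rw [hD]
        apply Nat.le_floor
        have h6 := s.min'_le x hx
        rw [Nat.cast_sub h6]
        exact h4
      omega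
    have hD2 : (D : ℝ) ≤ 2 * √(H : ℝ) := by
      rw [hD]; exact Nat.floor_le (by positivity)
    have hDH : D ≤ H := by
      have h3 : (D : ℝ) ≤ H := by
        refine hD2.trans ?_
        have h4 : (2 : ℝ) ≤ √(H : ℝ) := by
          rw [show (2 : ℝ) = √4 by rw [show (4 : ℝ) = 2 ^ 2 by norm_num]; rw [Real.sqrt_sq (by norm_num)]]
          exact Real.sqrt_le_sqrt (by linarith)
        nlinarith
      exact_mod_cast h3
    have e2 := short_block (X - 1) h X D hh0 (by omega) s (by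
      intro x hx
      have h3 := hDx x hx
      have h4 := s.min'_le x hx
      obtain ⟨c, hc, rfl⟩ := mem_image.1 hx
      refine ⟨(hg c hc).2.1, ?_, ?_, ?_, h3⟩ <;> omega)
    rw [← e1] at e2
    have e3 : (F.card : ℝ) ≤ 2 * (D / h + 2) := by
      have h3 : ((F.card : ℕ) : ℝ) ≤ ((2 * (D / h + 2) : ℕ) : ℝ) := by exact_mod_cast e2
      push_cast at h3
      have h4 : (((D / h : ℕ)) : ℝ) ≤ D / h := Nat.cast_div_le
      linarith
    have hhr : (0 : ℝ) < h := by exact_mod_cast hh0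
    have e4 : (D : ℝ) / h ≤ 4 * (H : ℝ) ^ (1 / 3 : ℝ) := by
      rw [div_le_iff₀ hhr]
      have h5 : √(H : ℝ) = (H : ℝ) ^ (1 / 3 : ℝ) * (H : ℝ) ^ (1 / ((6 : ℕ) : ℝ)) := by
        rw [Real.sqrt_eq_rpow, ← Real.rpow_add hH0]
        norm_num
      calc (D : ℝ) ≤ 2 * √(H : ℝ) := hD2
        _ = 2 * ((H : ℝ) ^ (1 / 3 : ℝ) * (H : ℝ) ^ (1 / ((6 : ℕ) : ℝ))) := by rw [h5]
        _ ≤ 2 * ((H : ℝ) ^ (1 / 3 : ℝ) * (2 * h)) := by gcongr
        _ = 4 * (H : ℝ) ^ (1 / 3 : ℝ) * h := by ring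
    nlinarith

/-- **Exceptional ordinates in an interval of length `2 H`, at any height.** -/
theorem winY (δ : ℝ) (h0 : 0 < δ) (h1 : δ ≤ 1 / 2) : ∃ K : ℝ, 0 < K ∧ ∀ H : ℕ, 1 ≤ H → ∀ w : ℤ,
    (((Icc (-(H : ℤ)) H).filter (fun c => BadY δ (w + c))).card : ℝ) ≤ K * (H : ℝ) ^ (1 / 3 : ℝ) := by
  obtain ⟨K, hK, hcount⟩ := countY δ h0 h1
  refine ⟨3 * K + 2201, by positivity, ?_⟩
  intro H hH w
  have hHr : (1 : ℝ) ≤ H := by exact_mod_cast hH
  have hH0 : (0 : ℝ) < H := by linarith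
  have hp : 1 ≤ (H : ℝ) ^ (1 / 3 : ℝ) := Real.one_le_rpow hHr (by norm_num)
  rcases Nat.lt_or_ge H 1100 with h32 | h32
  · have e1 : ((Icc (-(H : ℤ)) H).filter (fun c => BadY δ (w + c))).card ≤ 2201 := by
      calc ((Icc (-(H : ℤ)) H).filter (fun c => BadY δ (w + c))).card ≤ (Icc (-(H : ℤ)) H).card :=
            Finset.card_filter_le _ _
        _ ≤ 2201 := by rw [Int.card_Icc]; omega
    have e2 : (((Icc (-(H : ℤ)) H).filter (fun c => BadY δ (w + c))).card : ℝ) ≤ 2201 := by exact_mod_cast e1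
    nlinarith
  rcases le_or_gt (w ^ 2) (4 * (H : ℤ) ^ 3) with hw | hw
  · -- small height
    set F := (Icc (-(H : ℤ)) H).filter (fun c => BadY δ (w + c)) with hF
    have e1 : (F.card : ℝ) = ((F.image (fun c => w + c)).card : ℝ) := by
      rw [Finset.card_image_of_injective _ (add_right_injective w)]
    have hP : ((H : ℝ) ^ (3 / 2 : ℝ)) ^ 2 = (H : ℝ) ^ 3 := by
      rw [← Real.rpow_natCast, ← Real.rpow_mul hH0.le, ← Real.rpow_natCast (H : ℝ) 3]
      norm_num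
    have hP0 : 0 < (H : ℝ) ^ (3 / 2 : ℝ) := by positivity
    have hHP : (H : ℝ) ≤ (H : ℝ) ^ (3 / 2 : ℝ) := by
      calc (H : ℝ) = (H : ℝ) ^ (1 : ℝ) := (Real.rpow_one _).symm
        _ ≤ _ := Real.rpow_le_rpow_of_exponent_le hHr (by norm_num)
    have hwr : |(w : ℝ)| ≤ 2 * (H : ℝ) ^ (3 / 2 : ℝ) := by
      apply abs_le_of_sq_le_sq _ (by positivity)
      rw [mul_pow, hP]
      have : ((w ^ 2 : ℤ) : ℝ) ≤ ((4 * (H : ℤ) ^ 3 : ℤ) : ℝ) := by exact_mod_cast hw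
      push_cast at this
      linarith
    have e2 := hcount (3 * (H : ℝ) ^ (3 / 2 : ℝ)) (by linarith) (F.image (fun c => w + c)) (by
      intro x hx
      rw [mem_image] at hx
      obtain ⟨c, hc, rfl⟩ := hx
      rw [hF, mem_filter, mem_Icc, ← abs_le] at hc
      refine ⟨?_, hc.2⟩
      have h4 := abs_add_le (w : ℝ) c
      have h5 : |(c : ℝ)| ≤ H := by exact_mod_cast hc.1
      push_cast
      linarith)
    rw [e1]
    refine e2.trans ?_
    have h3 : (3 * (H : ℝ) ^ (3 / 2 : ℝ)) ^ (2 / 9 - δ / 18) ≤ 3 * (H : ℝ) ^ (1 / 3 : ℝ) := by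
      calc (3 * (H : ℝ) ^ (3 / 2 : ℝ)) ^ (2 / 9 - δ / 18) ≤ (3 * (H : ℝ) ^ (3 / 2 : ℝ)) ^ (2 / 9 : ℝ) :=
            Real.rpow_le_rpow_of_exponent_le (by linarith) (by linarith)
        _ = (3 : ℝ) ^ (2 / 9 : ℝ) * (H : ℝ) ^ (1 / 3 : ℝ) := by
            rw [Real.mul_rpow (by norm_num) (by positivity), ← Real.rpow_mul hH0.le]
            norm_num
        _ ≤ 3 * (H : ℝ) ^ (1 / 3 : ℝ) := by
            have h4 : (3 : ℝ) ^ (2 / 9 : ℝ) ≤ 3 := by
              calc (3 : ℝ) ^ (2 / 9 : ℝ) ≤ (3 : ℝ) ^ (1 : ℝ) :=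
                    Real.rpow_le_rpow_of_exponent_le (by norm_num) (by norm_num)
                _ = 3 := Real.rpow_one _
            gcongr
    calc K * (3 * (H : ℝ) ^ (3 / 2 : ℝ)) ^ (2 / 9 - δ / 18) ≤ K * (3 * (H : ℝ) ^ (1 / 3 : ℝ)) := by gcongr
      _ ≤ _ := by nlinarith
  · rcases lt_trichotomy w 0 with hw0 | hw0 | hw0
    · have h3 := winY_pos δ h0 H h32 (-w) (by omega) (by rw [neg_sq]; exact hw.le)
      have h4 : ((Icc (-(H : ℤ)) H).filter (fun c => BadY δ (w + c))).card ≤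
          ((Icc (-(H : ℤ)) H).filter (fun c => BadY δ (-w + c))).card := by
        refine Finset.card_le_card_of_injOn (fun c => -c) ?_ (fun a _ b _ hab => neg_injective hab)
        intro c hc
        rw [Finset.mem_coe, mem_filter, mem_Icc] at hc ⊢
        dsimp only
        refine ⟨⟨by omega, by omega⟩, ?_⟩
        rw [← neg_add, badY_neg]
        exact hc.2
      have h5 : (((Icc (-(H : ℤ)) H).filter (fun c => BadY δ (w + c))).card : ℝ) ≤
          (((Icc (-(H : ℤ)) H).filter (fun c => BadY δ (-w + c))).card : ℝ) := by exact_mod_cast h4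
      nlinarith
    · exfalso
      rw [hw0] at hw
      have : 0 < (H : ℤ) ^ 3 := by positivity
      nlinarith
    · have h3 := winY_pos δ h0 H h32 w hw0 hw.le
      nlinarith

end T9h23.Tr
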