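import Mathlib
import Pool.Agent.T9h23.Op.A2

/-! # Union bound over the tuples of `S`-units -/

set_option autoImplicit false

namespace T9h23.Tr

open Finset T9h23.Op
open scoped Classical

/-- the `S`-units in `[1, U]` -/
noncomputable def units (S : Finset ℕ) (U : ℕ) : Finset ℕ := (Icc 1 U).filter (fun u => u.primeFactors ⊆ S)

theorem card_units (S : Finset ℕ) (U : ℕ) : (units S U).card ≤ (Nat.log 2 U + 1) ^ S.card := by
  have h1 : (units S U).card ≤ (Fintype.piFinset (fun _ : S => range (Nat.log 2 U + 1))).card := by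
    refine Finset.card_le_card_of_injOn (fun u => fun p : S => u.factorization p) ?_ ?_
    · intro u hu
      rw [Finset.mem_coe, units, mem_filter, mem_Icc] at hu
      rw [Finset.mem_coe, Fintype.mem_piFinset]
      intro p
      rw [mem_range, Nat.lt_succ_iff]
      dsimp only
      by_cases hp : (p : ℕ).Prime
      · apply Nat.le_log_of_pow_le (by norm_num)
        calc 2 ^ u.factorization p ≤ (p : ℕ) ^ u.factorization p := Nat.pow_le_pow_left hp.two_le _
          _ ≤ u := Nat.ordProj_le _ (by omega)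
          _ ≤ U := hu.1.2
      · rw [Nat.factorization_eq_zero_of_not_prime _ hp]
        omega
    · intro u hu v hv huv
      rw [Finset.mem_coe, units, mem_filter, mem_Icc] at hu hv
      apply Nat.eq_of_factorization_eq (by omega) (by omega)
      intro p
      by_cases hp : p ∈ S
      · exact congrFun huv ⟨p, hp⟩
      · have h1 : p ∉ u.primeFactors := fun h => hp (hu.2 h)
        have h2 : p ∉ v.primeFactors := fun h => hp (hv.2 h)
        rw [← Nat.support_factorization, Finsupp.notMem_support_iff] at h1 h2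
        rw [h1, h2]
  refine h1.trans (le_of_eq ?_)
  rw [Fintype.card_piFinset]
  simp

/-- the sum -/
def val {k : ℕ} (b : ℤ) (u : ℕ) (v : Fin k → ℕ) (a : Fin (k + 1) → ℤ) : ℤ :=
  b * u + a 0 + ∑ i : Fin k, a i.succ * v i

/-- one tuple of units -/
theorem one_shape {k H : ℕ} (P : ℤ → Prop) (W : ℝ) (hW : ∀ w : ℤ,
    (((Icc (-(H : ℤ)) H).filter (fun c => P (w + c))).card : ℝ) ≤ W) (b : ℤ) (u : ℕ) (v : Fin k → ℕ) :
    (((box (k + 1) H).filter (fun a => P (val b u v a))).card : ℝ) ≤ (2 * H + 1) ^ k * W := by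
  set s := (box (k + 1) H).filter (fun a => P (val b u v a)) with hs
  have hmaps : ∀ a ∈ s, Fin.tail a ∈ box k H := by
    intro a ha
    rw [hs, mem_filter, mem_box] at ha
    rw [mem_box]
    exact fun i => ha.1 i.succ
  have hcard := Finset.card_eq_sum_card_fiberwise (f := fun a : Fin (k + 1) → ℤ => Fin.tail a) (s := s)
    (t := box k H) (fun a ha => hmaps a ha)
  have hfib : ∀ t ∈ box k H, ((s.filter (fun a => Fin.tail a = t)).card : ℝ) ≤ W := by
    intro t _
    refine le_trans ?_ (hW (b * u + ∑ i : Fin k, t i * v i))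
    have : (s.filter (fun a => Fin.tail a = t)).card ≤
        ((Icc (-(H : ℤ)) H).filter (fun c => P (b * u + ∑ i : Fin k, t i * v i + c))).card := by
      refine Finset.card_le_card_of_injOn (fun a => a 0) ?_ ?_
      · intro a ha
        rw [Finset.mem_coe, mem_filter, hs, mem_filter, mem_box] at ha
        obtain ⟨⟨h1, h2⟩, h3⟩ := ha
        rw [Finset.mem_coe, mem_filter, mem_Icc, ← abs_le]
        refine ⟨h1 0, ?_⟩
        have h4 : val b u v a = b * u + ∑ i : Fin k, t i * v i + a 0 := by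
          unfold val
          rw [← h3]
          unfold Fin.tail
          ring
        rw [← h4]
        exact h2
      · intro a ha c hc hac
        rw [Finset.mem_coe, mem_filter] at ha hc
        rw [← Fin.cons_self_tail a, ← Fin.cons_self_tail c, ha.2, hc.2]
        have : a 0 = c 0 := hac
        rw [this]
    exact_mod_cast this
  have hbox : ((box k H).card : ℝ) = (2 * H + 1) ^ k := by
    have h2 : (box k H).card = (2 * H + 1) ^ k := by
      unfold T9h23.Op.box
      rw [Fintype.card_piFinset]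
      simp only [Int.card_Icc, Finset.prod_const, Finset.card_univ, Fintype.card_fin]
      congr 1
      omega
    rw [h2]; push_cast; ring
  calc (s.card : ℝ) = ∑ t ∈ box k H, ((s.filter (fun a => Fin.tail a = t)).card : ℝ) := by
        rw [hcard]; push_cast; rfl
    _ ≤ (box k H).card • W := Finset.sum_le_card_nsmul _ _ _ hfib
    _ = (2 * H + 1) ^ k * W := by rw [nsmul_eq_mul, hbox]

/-- **The union bound.** -/
theorem union_bound {k H : ℕ} (P : ℤ → Prop) (W : ℝ) (hW : ∀ w : ℤ,
    (((Icc (-(H : ℤ)) H).filter (fun c => P (w + c))).card : ℝ) ≤ W) (S : Finset ℕ) (A U : ℕ) :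
    (((box (k + 1) H).filter (fun a => ∃ (b : ℤ) (u : ℕ) (v : Fin k → ℕ), |b| ≤ A ∧ u ∈ units S U ∧
      (∀ i, v i ∈ units S U) ∧ P (val b u v a))).card : ℝ) ≤
      (2 * A + 1) * ((Nat.log 2 U + 1 : ℝ) ^ (S.card * (k + 1))) * ((2 * H + 1) ^ k * W) := by
  set T : Finset (ℤ × ℕ × (Fin k → ℕ)) := (Icc (-(A : ℤ)) A) ×ˢ (units S U) ×ˢ
    (Fintype.piFinset (fun _ : Fin k => units S U)) with hT
  have hsub : (box (k + 1) H).filter (fun a => ∃ (b : ℤ) (u : ℕ) (v : Fin k → ℕ), |b| ≤ A ∧ u ∈ units S U ∧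
      (∀ i, v i ∈ units S U) ∧ P (val b u v a)) ⊆
      T.biUnion (fun t => (box (k + 1) H).filter (fun a => P (val t.1 t.2.1 t.2.2 a))) := by
    intro a ha
    rw [mem_filter] at ha
    obtain ⟨ha1, b, u, v, h1, h2, h3, h4⟩ := ha
    rw [mem_biUnion]
    refine ⟨(b, u, v), ?_, ?_⟩
    · rw [hT, mem_product, mem_product, mem_Icc, Fintype.mem_piFinset, ← abs_le]
      exact ⟨h1, h2, h3⟩
    · rw [mem_filter]
      exact ⟨ha1, h4⟩
  have hW0 : 0 ≤ W := le_trans (by positivity) (hW 0)
  have h1 : (((T.biUnion (fun t => (box (k + 1) H).filter (fun a => P (val t.1 t.2.1 t.2.2 a)))).card : ℕ) : ℝ) ≤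
      T.card * ((2 * H + 1) ^ k * W) := by
    have h2 : (((T.biUnion (fun t => (box (k + 1) H).filter (fun a => P (val t.1 t.2.1 t.2.2 a)))).card : ℕ) : ℝ) ≤
        ∑ t ∈ T, (((box (k + 1) H).filter (fun a => P (val t.1 t.2.1 t.2.2 a))).card : ℝ) := by
      exact_mod_cast Finset.card_biUnion_le
    refine h2.trans ((Finset.sum_le_card_nsmul T _ _ (fun t _ => one_shape P W hW t.1 t.2.1 t.2.2)).trans ?_)
    rw [nsmul_eq_mul]
  have h2 : (T.card : ℝ) ≤ (2 * A + 1) * (Nat.log 2 U + 1 : ℝ) ^ (S.card * (k + 1)) := by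
    have h3 : T.card ≤ (2 * A + 1) * (Nat.log 2 U + 1) ^ (S.card * (k + 1)) := by
      rw [hT, card_product, card_product, Fintype.card_piFinset]
      simp only [Int.card_Icc, Finset.prod_const, Finset.card_univ, Fintype.card_fin]
      have h4 : ((A : ℤ) + 1 - -(A : ℤ)).toNat = 2 * A + 1 := by omega
      rw [h4, mul_add_one S.card k, pow_add, pow_mul]
      have h5 := card_units S U
      have h6 : (units S U).card ^ k ≤ ((Nat.log 2 U + 1) ^ S.card) ^ k := Nat.pow_le_pow_left h5 k
      calc (2 * A + 1) * ((units S U).card * (units S U).card ^ k)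
          ≤ (2 * A + 1) * ((Nat.log 2 U + 1) ^ S.card * ((Nat.log 2 U + 1) ^ S.card) ^ k) := by gcongr
        _ = _ := by ring
    exact_mod_cast h3
  refine (show _ ≤ _ by exact_mod_cast Finset.card_le_card hsub).trans (h1.trans ?_)
  have h3 : 0 ≤ (2 * (H : ℝ) + 1) ^ k * W := by positivity
  gcongr

end T9h23.Tr
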