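import Pool.Agent.T9h23.Tr.G3
import Pool.Agent.Results.MP_9d7cd1_nt.SparseAbscissa

/-! # Large arguments, with the subspace theorem -/

set_option autoImplicit false

namespace T9h23.Tr

open Finset T9h23.Op
open Pool.Agent.Results.MP_9d7cd1_nt.SparseAbscissa (Sparse general)

/-- the dominated tuples of `S`-units -/
structure Shape (S : Finset ℕ) (k A : ℕ) (η : ℝ) (b : ℤ) (u : ℕ) (v : Fin k → ℕ) : Prop where
  b0 : b ≠ 0
  bA : |b| ≤ A
  u0 : u ≠ 0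
  uS : u.primeFactors ⊆ S
  v0 : ∀ i, v i ≠ 0
  vS : ∀ i, (v i).primeFactors ⊆ S
  dom : ∀ i, (v i : ℝ) ≤ (u : ℝ) ^ (1 - η)

theorem sparse_val {S : Finset ℕ} {k A : ℕ} {η : ℝ} (hη : η ≤ 1) {b : ℤ} {u : ℕ} {v : Fin k → ℕ}
    (h : Shape S k A η b u v) {H : ℕ} {a : Fin (k + 1) → ℤ} (ha : ∀ i, |a i| ≤ H) {M : ℝ} (hM1 : (A : ℝ) ≤ M)
    (hM2 : (H : ℝ) ≤ M) :
    Sparse S (k + 1) η M (Fin.cons u (Fin.cons 1 v)) (Fin.cons b a) (val b u v a) := by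
  have hu1 : (1 : ℝ) ≤ u := by
    have := h.u0
    exact_mod_cast Nat.one_le_iff_ne_zero.2 this
  refine ⟨?_, ?_, ?_, ?_, ?_⟩
  · intro i
    refine Fin.cases ?_ (fun i => ?_) i
    · exact ⟨h.u0, h.uS⟩
    · refine Fin.cases ?_ (fun i => ?_) i
      · simp
      · exact ⟨h.v0 i, h.vS i⟩
  · intro i
    refine Fin.cases ?_ (fun i => ?_) i
    · intro h0
      exact absurd rfl h0
    · intro _
      refine Fin.cases ?_ (fun i => ?_) i
      · simp only [Fin.cons_succ, Fin.cons_zero, Nat.cast_one]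
        exact Real.one_le_rpow hu1 (by linarith)
      · simp only [Fin.cons_succ, Fin.cons_zero]
        exact h.dom i
  · exact h.b0
  · intro i
    refine Fin.cases ?_ (fun i => ?_) i
    · simp only [Fin.cons_zero]
      have : |(b : ℝ)| ≤ A := by exact_mod_cast h.bA
      linarith
    · simp only [Fin.cons_succ]
      have : |(a i : ℝ)| ≤ H := by exact_mod_cast ha i
      linarith
  · rw [Fin.sum_univ_succ, Fin.sum_univ_succ]
    simp only [Fin.cons_succ, Fin.cons_zero]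
    unfold val
    push_cast
    ring

/-- comparison of powers -/
theorem pow_cmp {z R t δ : ℝ} (hz : 1 ≤ z) (hδ : 0 < δ) (h1 : z ^ (1 / 2 - δ / 2) ≤ R * t)
    (h2 : t < z ^ (1 / 2 - δ)) (hR : 0 < R) : z ≤ R ^ (2 / δ) := by
  have hz0 : 0 < z := by linarith
  have h3 : z ^ (δ / 2) * z ^ (1 / 2 - δ) ≤ R * z ^ (1 / 2 - δ) := by
    rw [← Real.rpow_add hz0, show δ / 2 + (1 / 2 - δ) = 1 / 2 - δ / 2 by ring]
    refine h1.trans ?_
    gcongr
  have h4 : z ^ (δ / 2) ≤ R := le_of_mul_le_mul_right h3 (by positivity)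
  calc z = (z ^ (δ / 2)) ^ (2 / δ) := by
        rw [← Real.rpow_mul hz0.le]
        have : δ / 2 * (2 / δ) = 1 := by field_simp
        rw [this, Real.rpow_one]
    _ ≤ R ^ (2 / δ) := Real.rpow_le_rpow (by positivity) h4 (by positivity)

theorem const_cmp {K : ℝ} (hK : 0 < K) {A H : ℕ} (hH : 1 ≤ H) :
    (K * ((A + 1) * H)) ^ K ≤ ((max K 1 * (A + 1)) * H) ^ (max K 1) := by
  have hHr : (1 : ℝ) ≤ H := by exact_mod_cast hH
  have hA : (0 : ℝ) ≤ A := by positivity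
  have h1 : (1 : ℝ) ≤ (max K 1 * (A + 1)) * H := by
    have h2 : (1 : ℝ) ≤ max K 1 := le_max_right _ _
    have h3 : (1 : ℝ) ≤ max K 1 * (A + 1) := by nlinarith
    nlinarith
  calc (K * ((A + 1) * H)) ^ K ≤ ((max K 1 * (A + 1)) * H) ^ K := by
        apply Real.rpow_le_rpow (by positivity) _ hK.le
        rw [mul_assoc]
        gcongr
        exact le_max_left _ _
    _ ≤ _ := Real.rpow_le_rpow_of_exponent_le h1 (le_max_left _ _)

/-- **Size of the exceptional abscissas.** -/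
theorem size_x (S : Finset ℕ) (k A : ℕ) (η δ : ℝ) (hη : 0 < η) (hη1 : η ≤ 1) (hδ : 0 < δ) :
    ∃ B κ : ℝ, 1 ≤ B ∧ 1 ≤ κ ∧ ∀ H : ℕ, 1 ≤ H → ∀ a : Fin (k + 1) → ℤ, (∀ i, |a i| ≤ H) → ∀ b u v,
      Shape S k A η b u v → ∀ y : ℤ, y ^ 2 ≠ (val b u v a) ^ 3 →
      |(y : ℝ) ^ 2 - (val b u v a : ℝ) ^ 3| < |(val b u v a : ℝ)| ^ (1 / 2 - δ) →
      |(val b u v a : ℝ)| ≤ (B * H) ^ κ := by
  obtain ⟨K, hK, h⟩ := general 3 2 (k + 1) (A ^ 3) (by norm_num) (by norm_num) S η (δ / 6) hη (by positivity)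
  refine ⟨max K 1 * (A + 1), max (max K 1 * (2 / δ)) 1, ?_, le_max_right _ _, ?_⟩
  · have h2 : (1 : ℝ) ≤ max K 1 := le_max_right _ _
    have hA : (0 : ℝ) ≤ A := by positivity
    nlinarith
  intro H hH a ha b u v hs y hne hlt
  have hHr : (1 : ℝ) ≤ H := by exact_mod_cast hH
  have hA : (0 : ℝ) ≤ A := by positivity
  set x := val b u v a with hx
  have hbase : (1 : ℝ) ≤ (max K 1 * (A + 1)) * H := by
    have h2 : (1 : ℝ) ≤ max K 1 := le_max_right _ _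
    have h3 : (1 : ℝ) ≤ max K 1 * (A + 1) := by nlinarith
    nlinarith
  rcases eq_or_ne x 0 with hx0 | hx0
  · rw [hx0, Int.cast_zero, abs_zero]
    positivity
  have hx1 : (1 : ℝ) ≤ |(x : ℝ)| := by
    have : 1 ≤ |x| := Int.one_le_abs hx0
    exact_mod_cast this
  have h1 := h ((A + 1) * H) (by nlinarith) _ _ x (sparse_val hη1 hs ha (by nlinarith) (by nlinarith))
    ⟨b ^ 3, 1, by simp, by
      rw [abs_pow]
      push_cast
      exact pow_le_pow_left₀ (abs_nonneg _) hs.bA 3⟩ y hne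
  have h2 : |(x : ℝ)| ^ (1 / 2 - δ / 2) ≤ (K * ((A + 1) * H)) ^ K * |(y : ℝ) ^ 2 - (x : ℝ) ^ 3| := by
    refine le_trans ?_ h1
    have e1 : 1 - 1 / ((3 : ℕ) : ℝ) - 1 / ((2 : ℕ) : ℝ) - δ / 6 = (1 / 2 - δ / 2) / 3 := by
      push_cast; ring
    rw [e1]
    rcases le_or_gt 0 (1 / 2 - δ / 2) with h0 | h0
    · calc |(x : ℝ)| ^ (1 / 2 - δ / 2) = (|(x : ℝ)| ^ 3) ^ ((1 / 2 - δ / 2) / 3) := by
            rw [← Real.rpow_natCast, ← Real.rpow_mul (abs_nonneg _)]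
            congr 1
            push_cast
            ring
        _ ≤ _ := Real.rpow_le_rpow (by positivity) (le_max_left _ _) (by positivity)
    · exfalso
      have h3 : |(x : ℝ)| ^ (1 / 2 - δ) ≤ 1 := Real.rpow_le_one_of_one_le_of_nonpos hx1 (by linarith)
      have h4 : (1 : ℝ) ≤ |(y : ℝ) ^ 2 - (x : ℝ) ^ 3| := by
        have : 1 ≤ |y ^ 2 - x ^ 3| := Int.one_le_abs (sub_ne_zero.2 hne)
        exact_mod_cast this
      linarith
  have h3 := pow_cmp hx1 hδ h2 hlt (by positivity)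
  refine h3.trans ?_
  calc ((K * ((A + 1) * H)) ^ K) ^ (2 / δ) ≤ (((max K 1 * (A + 1)) * H) ^ (max K 1)) ^ (2 / δ) :=
        Real.rpow_le_rpow (by positivity) (const_cmp hK hH) (by positivity)
    _ = ((max K 1 * (A + 1)) * H) ^ (max K 1 * (2 / δ)) := by rw [← Real.rpow_mul (by positivity)]
    _ ≤ _ := Real.rpow_le_rpow_of_exponent_le hbase (le_max_left _ _)

/-- **Size of the exceptional ordinates.** -/
theorem size_y (S : Finset ℕ) (k A : ℕ) (η δ : ℝ) (hη : 0 < η) (hη1 : η ≤ 1) (hδ : 0 < δ) :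
    ∃ B κ : ℝ, 1 ≤ B ∧ 1 ≤ κ ∧ ∀ H : ℕ, 1 ≤ H → ∀ a : Fin (k + 1) → ℤ, (∀ i, |a i| ≤ H) → ∀ b u v,
      Shape S k A η b u v → ∀ x : ℤ, (val b u v a) ^ 2 ≠ x ^ 3 →
      |(val b u v a : ℝ) ^ 2 - (x : ℝ) ^ 3| < |(x : ℝ)| ^ (1 / 2 - δ) →
      |(val b u v a : ℝ)| ≤ (B * H) ^ κ := by
  obtain ⟨K, hK, h⟩ := general 2 3 (k + 1) (A ^ 2) (by norm_num) (by norm_num) S η (δ / 6) hη (by positivity)
  set B₀ : ℝ := max K 1 * (A + 1) with hB₀
  set κ₀ : ℝ := max (max K 1 * (2 / δ)) 1 with hκ₀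
  have hB1 : 1 ≤ B₀ := by
    have h2 : (1 : ℝ) ≤ max K 1 := le_max_right _ _
    have hA : (0 : ℝ) ≤ A := by positivity
    rw [hB₀]
    nlinarith
  have hκ1 : 1 ≤ κ₀ := le_max_right _ _
  refine ⟨2 * B₀, 2 * κ₀ + 1, by linarith, by linarith, ?_⟩
  intro H hH a ha b u v hs x hne hlt
  have hHr : (1 : ℝ) ≤ H := by exact_mod_cast hH
  have hA : (0 : ℝ) ≤ A := by positivity
  set y := val b u v a with hy
  have hbase : (1 : ℝ) ≤ B₀ * H := by nlinarith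
  have hone : (1 : ℝ) ≤ |(y : ℝ) ^ 2 - (x : ℝ) ^ 3| := by
    have : 1 ≤ |y ^ 2 - x ^ 3| := Int.one_le_abs (sub_ne_zero.2 hne)
    exact_mod_cast this
  have hx0 : x ≠ 0 := by
    rintro rfl
    rw [Int.cast_zero, abs_zero] at hlt
    rw [Int.cast_zero] at hone
    rcases eq_or_ne (1 / 2 - δ) 0 with h0 | h0
    · rw [h0, Real.rpow_zero] at hlt
      linarith
    · rw [Real.zero_rpow h0] at hlt
      linarith
  have hx1 : (1 : ℝ) ≤ |(x : ℝ)| := by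
    have : 1 ≤ |x| := Int.one_le_abs hx0
    exact_mod_cast this
  have h1 := h ((A + 1) * H) (by nlinarith) _ _ y (sparse_val hη1 hs ha (by nlinarith) (by nlinarith))
    ⟨b ^ 2, 1, by simp, by
      rw [abs_pow]
      push_cast
      exact pow_le_pow_left₀ (abs_nonneg _) hs.bA 2⟩ x (fun h => hne h.symm)
  have h2 : |(x : ℝ)| ^ (1 / 2 - δ / 2) ≤ (K * ((A + 1) * H)) ^ K * |(y : ℝ) ^ 2 - (x : ℝ) ^ 3| := by
    rw [abs_sub_comm]
    refine le_trans ?_ h1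
    have e1 : 1 - 1 / ((2 : ℕ) : ℝ) - 1 / ((3 : ℕ) : ℝ) - δ / 6 = (1 / 2 - δ / 2) / 3 := by
      push_cast; ring
    rw [e1]
    rcases le_or_gt 0 (1 / 2 - δ / 2) with h0 | h0
    · calc |(x : ℝ)| ^ (1 / 2 - δ / 2) = (|(x : ℝ)| ^ 3) ^ ((1 / 2 - δ / 2) / 3) := by
            rw [← Real.rpow_natCast, ← Real.rpow_mul (abs_nonneg _)]
            congr 1
            push_cast
            ring
        _ ≤ _ := Real.rpow_le_rpow (by positivity) (le_max_right _ _) (by positivity)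
    · exfalso
      have h3 : |(x : ℝ)| ^ (1 / 2 - δ) ≤ 1 := Real.rpow_le_one_of_one_le_of_nonpos hx1 (by linarith)
      linarith
  have h3 := pow_cmp hx1 hδ h2 hlt (by positivity)
  have h4 : |(x : ℝ)| ≤ (B₀ * H) ^ κ₀ := by
    refine h3.trans ?_
    calc ((K * ((A + 1) * H)) ^ K) ^ (2 / δ) ≤ ((B₀ * H) ^ (max K 1)) ^ (2 / δ) :=
          Real.rpow_le_rpow (by positivity) (const_cmp hK hH) (by positivity)
      _ = (B₀ * H) ^ (max K 1 * (2 / δ)) := by rw [← Real.rpow_mul (by positivity)]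
      _ ≤ _ := Real.rpow_le_rpow_of_exponent_le hbase (le_max_left _ _)
  -- the ordinate
  have h5 : |(y : ℝ)| ^ 2 ≤ (2 * |(x : ℝ)| ^ 2) ^ 2 := by
    rw [sq_abs]
    have h6 := le_abs_self ((y : ℝ) ^ 2 - (x : ℝ) ^ 3)
    have h7 : (x : ℝ) ^ 3 ≤ |(x : ℝ)| ^ 3 := by rw [← abs_pow]; exact le_abs_self _
    have h8 : |(x : ℝ)| ^ (1 / 2 - δ) ≤ |(x : ℝ)| := by
      calc |(x : ℝ)| ^ (1 / 2 - δ) ≤ |(x : ℝ)| ^ (1 : ℝ) := Real.rpow_le_rpow_of_exponent_le hx1 (by linarith)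
        _ = _ := Real.rpow_one _
    have h9 : |(x : ℝ)| ^ 3 ≤ |(x : ℝ)| ^ 4 := pow_le_pow_right₀ hx1 (by norm_num)
    have h10 : |(x : ℝ)| ≤ |(x : ℝ)| ^ 4 := le_self_pow₀ hx1 (by norm_num)
    have h11 : (2 * |(x : ℝ)| ^ 2) ^ 2 = 4 * |(x : ℝ)| ^ 4 := by ring
    rw [h11]
    have h12 : 0 ≤ |(x : ℝ)| ^ 4 := by positivity
    linarith
  have h6 : |(y : ℝ)| ≤ 2 * |(x : ℝ)| ^ 2 := (abs_le_of_sq_le_sq' h5 (by positivity)).2
  calc |(y : ℝ)| ≤ 2 * |(x : ℝ)| ^ 2 := h6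
    _ ≤ 2 * ((B₀ * H) ^ κ₀) ^ 2 := by gcongr
    _ = 2 * (B₀ * H) ^ (2 * κ₀) := by
        rw [← Real.rpow_natCast ((B₀ * H) ^ κ₀) 2, ← Real.rpow_mul (by positivity)]
        congr 2
        push_cast
        ring
    _ ≤ (2 * B₀ * H) * (2 * B₀ * H) ^ (2 * κ₀) := by
        gcongr
        · nlinarith
        · nlinarith
    _ = (2 * B₀ * H) ^ (2 * κ₀ + 1) := by
        rw [Real.rpow_add (by positivity), Real.rpow_one]
        ring

/-- the size of the largest unit -/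
theorem u_bound {k H : ℕ} {η Z u : ℝ} (hη : 0 < η) (hu : 1 ≤ u)
    (h : u ≤ Z + H + k * H * u ^ (1 - η)) : u ≤ max ((2 * ((k : ℝ) * H)) ^ (1 / η)) (2 * (Z + H)) := by
  by_contra hcon
  push Not at hcon
  obtain ⟨h1, h2⟩ := max_lt_iff.1 hcon
  have hu0 : 0 < u := by linarith
  have h3 : 2 * ((k : ℝ) * H) ≤ u ^ η := by
    have h4 : ((2 * ((k : ℝ) * H)) ^ (1 / η)) ^ η ≤ u ^ η := Real.rpow_le_rpow (by positivity) h1.le hη.le
    rwa [← Real.rpow_mul (by positivity), one_div, inv_mul_cancel₀ hη.ne', Real.rpow_one] at h4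
  have h4 : 2 * ((k : ℝ) * H) * u ^ (1 - η) ≤ u := by
    calc 2 * ((k : ℝ) * H) * u ^ (1 - η) ≤ u ^ η * u ^ (1 - η) := by gcongr
      _ = u := by
        rw [← Real.rpow_add hu0]
        simp
  linarith

theorem val_bound {S : Finset ℕ} {k A : ℕ} {η : ℝ} {b : ℤ} {u : ℕ} {v : Fin k → ℕ}
    (h : Shape S k A η b u v) {H : ℕ} {a : Fin (k + 1) → ℤ} (ha : ∀ i, |a i| ≤ H) :
    (u : ℝ) ≤ |(val b u v a : ℝ)| + H + k * H * (u : ℝ) ^ (1 - η) := by
  have e : ((b : ℝ)) * u = (val b u v a : ℝ) - a 0 - ∑ i : Fin k, (a i.succ : ℝ) * v i := by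
    unfold val
    push_cast
    ring
  have h1 : (u : ℝ) ≤ |(b : ℝ) * u| := by
    rw [abs_mul, abs_of_nonneg (by positivity : (0 : ℝ) ≤ u)]
    have h2 : (1 : ℝ) ≤ |(b : ℝ)| := by
      have : 1 ≤ |b| := Int.one_le_abs h.b0
      exact_mod_cast this
    nlinarith [(by positivity : (0 : ℝ) ≤ u)]
  have h2 : |(a 0 : ℝ)| ≤ H := by exact_mod_cast ha 0
  have h3 : |∑ i : Fin k, (a i.succ : ℝ) * v i| ≤ k * H * (u : ℝ) ^ (1 - η) := by
    refine (Finset.abs_sum_le_sum_abs _ _).trans ?_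
    refine (Finset.sum_le_card_nsmul _ _ ((H : ℝ) * (u : ℝ) ^ (1 - η)) ?_).trans (le_of_eq ?_)
    · intro i _
      rw [abs_mul, abs_of_nonneg (by positivity : (0 : ℝ) ≤ (v i : ℝ))]
      have h4 : |(a i.succ : ℝ)| ≤ H := by exact_mod_cast ha i.succ
      have h5 := h.dom i
      gcongr
    · rw [card_univ, Fintype.card_fin, nsmul_eq_mul]
      ring
  rw [e] at h1
  have h4 := abs_sub ((val b u v a : ℝ) - a 0) (∑ i : Fin k, (a i.succ : ℝ) * v i)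
  have h5 := abs_sub (val b u v a : ℝ) (a 0)
  linarith

end T9h23.Tr
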