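import Pool.Agent.T9h23.Tr.G2
import Pool.Agent.T9h23.Tr.G4

/-! # Almost all coefficient vectors, all tuples of `S`-units -/

set_option autoImplicit false

namespace T9h23.Tr

open Finset T9h23.Op T9h23.Ha
open scoped Classical

theorem final (S : Finset ℕ) (k A : ℕ) (η ρ θ : ℝ) (hη : 0 < η) (hη1 : η ≤ 1) (hρ : 0 < ρ) (P : ℤ → Prop)
    (hwin : ∃ K : ℝ, 0 < K ∧ ∀ H : ℕ, 1 ≤ H → ∀ w : ℤ,
      (((Icc (-(H : ℤ)) H).filter (fun c => P (w + c))).card : ℝ) ≤ K * (H : ℝ) ^ θ)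
    (hsize : ∃ B κ : ℝ, 1 ≤ B ∧ 1 ≤ κ ∧ ∀ H : ℕ, 1 ≤ H → ∀ a : Fin (k + 1) → ℤ, (∀ i, |a i| ≤ H) → ∀ b u v,
      Shape S k A η b u v → P (val b u v a) → |(val b u v a : ℝ)| ≤ (B * H) ^ κ) :
    ∃ K : ℝ, 0 < K ∧ ∀ H : ℕ, 1 ≤ H →
      (((T9h23.Op.box (k + 1) H).filter (fun a => ∃ b u v, Shape S k A η b u v ∧ P (val b u v a))).card : ℝ) ≤
        K * (2 * (H : ℝ) + 1) ^ k * (H : ℝ) ^ (θ + ρ) := by
  obtain ⟨K, hK, hwin⟩ := hwin
  obtain ⟨B, κ, hB, hκ, hsize⟩ := hsize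
  set B' : ℝ := 2 * k + 4 * B with hB'
  set κ' : ℝ := 1 / η + κ + 1 with hκ'
  have hk0 : (0 : ℝ) ≤ k := by positivity
  have hinv : 0 < 1 / η := by positivity
  have hB'4 : 4 ≤ B' := by rw [hB']; linarith
  have hκ'0 : 0 < κ' := by rw [hκ']; linarith
  set n : ℕ := S.card * (k + 1) with hn
  set t : ℝ := ρ / (n + 1) with ht
  have ht0 : 0 < t := by positivity
  have hlogB : 0 ≤ Real.log B' := Real.log_nonneg (by linarith)
  set C₁ : ℝ := 1 + 2 * κ' * Real.log B' + 2 * κ' / t with hC₁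
  have hC₁0 : 0 < C₁ := by positivity
  refine ⟨(2 * A + 1) * C₁ ^ n * K, by positivity, ?_⟩
  intro H hH
  have hHr : (1 : ℝ) ≤ H := by exact_mod_cast hH
  have hH0 : (0 : ℝ) < H := by linarith
  have hBH : 4 ≤ B' * H := by nlinarith
  set U : ℕ := ⌊(B' * H) ^ κ'⌋₊ with hU
  have hub := union_bound (k := k) (H := H) P (K * (H : ℝ) ^ θ) (hwin H hH) S A U
  have hsub : (T9h23.Op.box (k + 1) H).filter (fun a => ∃ b u v, Shape S k A η b u v ∧ P (val b u v a)) ⊆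
      (T9h23.Op.box (k + 1) H).filter (fun a => ∃ (b : ℤ) (u : ℕ) (v : Fin k → ℕ), |b| ≤ A ∧ u ∈ units S U ∧
        (∀ i, v i ∈ units S U) ∧ P (val b u v a)) := by
    intro a ha
    rw [mem_filter] at ha ⊢
    obtain ⟨ha1, b, u, v, hs, hP⟩ := ha
    rw [mem_box] at ha1
    have hu1 : (1 : ℝ) ≤ u := by exact_mod_cast Nat.one_le_iff_ne_zero.2 hs.u0
    have h1 := val_bound hs ha1
    have h2 := hsize H hH a ha1 b u v hs hP
    have h3 : (u : ℝ) ≤ (B * H) ^ κ + H + k * H * (u : ℝ) ^ (1 - η) := by linarith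
    have h4 := u_bound hη hu1 h3
    have h5 : (u : ℝ) ≤ (B' * H) ^ κ' := by
      refine h4.trans (max_le ?_ ?_)
      · calc (2 * ((k : ℝ) * H)) ^ (1 / η) ≤ (B' * H) ^ (1 / η) := by
              apply Real.rpow_le_rpow (by positivity) _ hinv.le
              rw [hB']
              nlinarith
          _ ≤ (B' * H) ^ κ' := Real.rpow_le_rpow_of_exponent_le (by linarith) (by rw [hκ']; linarith)
      · have h6 : (H : ℝ) ≤ (B * H) ^ κ := by
          calc (H : ℝ) ≤ B * H := by nlinarith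
            _ = (B * H) ^ (1 : ℝ) := (Real.rpow_one _).symm
            _ ≤ _ := Real.rpow_le_rpow_of_exponent_le (by nlinarith) hκ
        calc 2 * ((B * H) ^ κ + (H : ℝ)) ≤ 4 * (B * H) ^ κ := by linarith
          _ ≤ (B' * H) * (B' * H) ^ κ := by
              gcongr
              rw [hB']; linarith
          _ = (B' * H) ^ (κ + 1) := by
              rw [Real.rpow_add (by positivity), Real.rpow_one]; ring
          _ ≤ (B' * H) ^ κ' := Real.rpow_le_rpow_of_exponent_le (by linarith) (by rw [hκ']; linarith)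
    have h6 : u ≤ U := Nat.le_floor h5
    refine ⟨mem_box.2 ha1, b, u, v, hs.bA, ?_, ?_, hP⟩
    · rw [units, mem_filter, mem_Icc]
      exact ⟨⟨Nat.one_le_iff_ne_zero.2 hs.u0, h6⟩, hs.uS⟩
    · intro i
      rw [units, mem_filter, mem_Icc]
      refine ⟨⟨Nat.one_le_iff_ne_zero.2 (hs.v0 i), ?_⟩, hs.vS i⟩
      have h7 : (v i : ℝ) ≤ u := by
        refine (hs.dom i).trans ?_
        calc (u : ℝ) ^ (1 - η) ≤ (u : ℝ) ^ (1 : ℝ) := Real.rpow_le_rpow_of_exponent_le hu1 (by linarith)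
          _ = u := Real.rpow_one _
      have h8 : v i ≤ u := by exact_mod_cast h7
      exact h8.trans h6
  have hlog : (Nat.log 2 U + 1 : ℝ) ≤ C₁ * (H : ℝ) ^ t := by
    have hU0 : U ≠ 0 := by
      have h1 : 1 ≤ U := by
        rw [hU]
        apply Nat.le_floor
        rw [Nat.cast_one]
        exact Real.one_le_rpow (by linarith) hκ'0.le
      omega
    have h1 := Nat.pow_log_le_self 2 hU0
    have h2 : ((2 : ℝ) ^ Nat.log 2 U) ≤ (B' * H) ^ κ' := by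
      have h3 : ((2 : ℝ) ^ Nat.log 2 U) ≤ U := by exact_mod_cast h1
      exact h3.trans (Nat.floor_le (by positivity))
    have h3 := Real.log_le_log (by positivity) h2
    rw [Real.log_pow, Real.log_rpow (by positivity), Real.log_mul (by positivity) (by positivity)] at h3
    have h4 : (1 : ℝ) / 2 ≤ Real.log 2 := by
      have := Real.log_two_gt_d9
      linarith
    have h5 := Real.log_le_rpow_div hH0.le ht0
    have h6 : (1 : ℝ) ≤ (H : ℝ) ^ t := Real.one_le_rpow hHr ht0.le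
    have h7 : (0 : ℝ) ≤ (Nat.log 2 U : ℝ) := by positivity
    have h8 : (Nat.log 2 U : ℝ) ≤ 2 * κ' * (Real.log B' + Real.log H) := by nlinarith
    have h9 : 2 * κ' * Real.log H ≤ 2 * κ' / t * (H : ℝ) ^ t := by
      calc 2 * κ' * Real.log H ≤ 2 * κ' * ((H : ℝ) ^ t / t) := by gcongr
        _ = _ := by ring
    rw [hC₁]
    have h10 : 1 + 2 * κ' * Real.log B' ≤ (1 + 2 * κ' * Real.log B') * (H : ℝ) ^ t :=
      le_mul_of_one_le_right (by positivity) h6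
    nlinarith
  have hpow : (Nat.log 2 U + 1 : ℝ) ^ n ≤ C₁ ^ n * (H : ℝ) ^ ρ := by
    calc (Nat.log 2 U + 1 : ℝ) ^ n ≤ (C₁ * (H : ℝ) ^ t) ^ n := by gcongr
      _ = C₁ ^ n * (H : ℝ) ^ (t * n) := by
          rw [mul_pow, ← Real.rpow_natCast ((H : ℝ) ^ t) n, ← Real.rpow_mul hH0.le]
      _ ≤ C₁ ^ n * (H : ℝ) ^ ρ := by
          gcongr
          rw [ht, div_mul_eq_mul_div, div_le_iff₀ (by positivity)]
          nlinarith
  refine (show _ ≤ _ by exact_mod_cast Finset.card_le_card hsub).trans (hub.trans ?_)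
  calc (2 * (A : ℝ) + 1) * (Nat.log 2 U + 1 : ℝ) ^ n * ((2 * H + 1) ^ k * (K * (H : ℝ) ^ θ))
      ≤ (2 * (A : ℝ) + 1) * (C₁ ^ n * (H : ℝ) ^ ρ) * ((2 * H + 1) ^ k * (K * (H : ℝ) ^ θ)) := by gcongr
    _ = (2 * A + 1) * C₁ ^ n * K * (2 * (H : ℝ) + 1) ^ k * (H : ℝ) ^ (θ + ρ) := by
        rw [Real.rpow_add hH0]
        ring

theorem mainX (S : Finset ℕ) (k A : ℕ) (η ρ δ : ℝ) (hη : 0 < η) (hη1 : η ≤ 1) (hρ : 0 < ρ) (h0 : 0 < δ)
    (h1 : δ ≤ 1 / 2) : ∃ K : ℝ, 0 < K ∧ ∀ H : ℕ, 1 ≤ H →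
      (((T9h23.Op.box (k + 1) H).filter (fun a => ∃ b u v, Shape S k A η b u v ∧ BadX δ (val b u v a))).card : ℝ) ≤
        K * (2 * (H : ℝ) + 1) ^ k * (H : ℝ) ^ (2 / 3 + ρ) := by
  refine final S k A η ρ (2 / 3) hη hη1 hρ (BadX δ) (winX δ h0 h1) ?_
  obtain ⟨B, κ, hB, hκ, h⟩ := size_x S k A η δ hη hη1 h0
  refine ⟨B, κ, hB, hκ, ?_⟩
  rintro H hH a ha b u v hs ⟨y, hy1, hy2⟩
  exact h H hH a ha b u v hs y hy1 hy2

theorem mainY (S : Finset ℕ) (k A : ℕ) (η ρ δ : ℝ) (hη : 0 < η) (hη1 : η ≤ 1) (hρ : 0 < ρ) (h0 : 0 < δ)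
    (h1 : δ ≤ 1 / 2) : ∃ K : ℝ, 0 < K ∧ ∀ H : ℕ, 1 ≤ H →
      (((T9h23.Op.box (k + 1) H).filter (fun a => ∃ b u v, Shape S k A η b u v ∧ BadY δ (val b u v a))).card : ℝ) ≤
        K * (2 * (H : ℝ) + 1) ^ k * (H : ℝ) ^ (1 / 3 + ρ) := by
  refine final S k A η ρ (1 / 3) hη hη1 hρ (BadY δ) (winY δ h0 h1) ?_
  obtain ⟨B, κ, hB, hκ, h⟩ := size_y S k A η δ hη hη1 h0
  refine ⟨B, κ, hB, hκ, ?_⟩
  rintro H hH a ha b u v hs ⟨x, hy1, hy2⟩
  exact h H hH a ha b u v hs x hy1 hy2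

end T9h23.Tr
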